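import Pool.Agent.helper22.FI3.SpecCQ

set_option autoImplicit false

namespace Pool.Agent.FI3

open Pool.Agent.helper58.DC Pool.Agent.DI Pool.Agent.GR Pool.Agent.OB Pool.Agent.DR Pool.Agent.FI

theorem JDG_index {p : ℕ} (hp : p.Prime) {G : Type} [Group G] [Finite G] {D C : Subgroup G}
    (hDC : D ≤ C) (h : Nat.card D = pp p C) : ¬ p ∣ D.relIndex C := by
  intro hd
  have hC0 : Nat.card C ≠ 0 := Nat.card_pos.ne'
  have h1 : Nat.card D * D.relIndex C = Nat.card C := by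
    have h2 := Subgroup.relIndex_mul_relIndex (⊥ : Subgroup G) D C bot_le hDC
    rw [Subgroup.relIndex_bot_left, Subgroup.relIndex_bot_left] at h2
    exact h2
  obtain ⟨k, hk⟩ := hd
  have hF : Fact p.Prime := ⟨hp⟩
  have h3 : p ^ (padicValNat p (Nat.card C) + 1) ∣ Nat.card C := by
    refine ⟨k, ?_⟩
    calc Nat.card C = Nat.card D * D.relIndex C := h1.symm
      _ = pp p C * (p * k) := by rw [h, hk]
      _ = p ^ (padicValNat p (Nat.card C) + 1) * k := by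
          unfold pp
          rw [pow_succ]
          ring
  have h4 := (padicValNat_dvd_iff_le hC0).1 h3
  omega

theorem JDG (hJSG : JSG_stmt) (hJPR : JPR_stmt) (hJMG : JMG_stmt) (hDEX : DEX_stmt) (hCLS : CLS_stmt)
    (hTPR : Pool.Agent.FI.TPR_stmt) (hSYL : SYL_stmt) : JDG_stmt := by
  intro p M hS G Gb _ _ _ _ L Z π hQ χ hχ D x' hZD hD
  have hpr : p.Prime := hS.pr
  have hF : Fact p.Prime := ⟨hpr⟩
  obtain ⟨hT1, -, -, -, hT5⟩ := hTPR p M hS Gb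
  obtain ⟨D₁, x₁, hD₁, -⟩ := hDEX p M hS Gb ⊤ χ (by rw [hT1]; exact hχ)
  obtain ⟨hJ1, hJ2, hJ3, -, -, -, -⟩ := hJSG p G Gb L Z π hQ
  obtain ⟨hP1, hP2⟩ := hJPR p G Gb L Z π hQ
  have hDL : D ≤ L := hD.le.trans inf_le_left
  have hDb : pre π ((D.subgroupOf L).map π) = D := hJ3 D hZD hDL
  have hcD : Nat.card D = Nat.card Z * Nat.card ((D.subgroupOf L).map π) := by
    have h := (hJ1 ((D.subgroupOf L).map π)).2.2.1
    rwa [hDb] at h
  have hZ0 : 0 < Nat.card Z := Nat.card_pos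
  have hom : ∀ y : Gb, omega χ y = cc χ (cls ⊤ y) := fun y => (hCLS Gb ⊤ y).2.2.2.2.2.2.2.1 χ
  have hint : ∀ y : Gb, IsIntegral ℤ (cc χ (cls ⊤ y)) := fun y =>
    (hCLS Gb ⊤ y).2.2.2.2.2.2.2.2 ⊤ le_rfl χ (by rw [hT1]; exact hχ)
  have hkey : ∀ (g : G) (hg : g ∈ L), PReg p g →
      cc (infl π χ) (cls L g) = cc χ (cls ⊤ (π ⟨g, hg⟩)) := by
    intro g hg hr
    obtain ⟨m, -, hm, h⟩ := hJMG p G Gb L Z π hQ g hg
    rw [h χ, hm hr, hom]
    simp
  have hpre : ∀ (g : G) (hg : g ∈ L), PReg p g →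
      pp p (Cz L g) = Nat.card Z * pp p (Subgroup.centralizer {π ⟨g, hg⟩}) := by
    intro g hg hr
    have h3 := (hJ1 (Subgroup.centralizer {π ⟨g, hg⟩})).2.2.2.2
    rw [(hP2 g hg hr).2.1] at h3
    exact h3
  have hcD₁ : Nat.card D₁ = pp p (Subgroup.centralizer {x₁}) := by
    have h := hD₁.card
    rwa [hT5] at h
  have ha : Nat.card D ≤ Nat.card Z * Nat.card D₁ := by
    obtain ⟨g₁, hg₁, hr₁, hπ₁⟩ := hP1 x₁ hD₁.reg
    have h1 := hD.min g₁ hg₁ (by rw [hkey g₁ hg₁ hr₁, hπ₁]; exact hD₁.ne)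
    rw [hpre g₁ hg₁ hr₁, hπ₁, ← hcD₁] at h1
    exact h1
  have hne : ¬ InM M (cc χ (cls ⊤ (π ⟨x', hD.mem⟩))) := by
    rw [← hkey x' hD.mem hD.reg]
    exact hD.ne
  have hcx : Nat.card D = Nat.card Z * pp p (Subgroup.centralizer {π ⟨x', hD.mem⟩}) := by
    rw [hD.card, hpre x' hD.mem hD.reg]
  have hb : Nat.card D₁ ≤ pp p (Subgroup.centralizer {π ⟨x', hD.mem⟩}) := by
    have h1 := hD₁.min (π ⟨x', hD.mem⟩) (Subgroup.mem_top _) hne
    rwa [hT5] at h1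
  have he1 : Nat.card ((D.subgroupOf L).map π) = pp p (Subgroup.centralizer {π ⟨x', hD.mem⟩}) :=
    Nat.eq_of_mul_eq_mul_left hZ0 (hcD.symm.trans hcx)
  have he2 : Nat.card ((D.subgroupOf L).map π) = Nat.card D₁ := by
    refine le_antisymm ?_ ?_
    · have h1 : Nat.card Z * Nat.card ((D.subgroupOf L).map π) ≤ Nat.card Z * Nat.card D₁ := by
        rw [← hcD]
        exact ha
      exact Nat.le_of_mul_le_mul_left h1 hZ0
    · rw [he1]
      exact hb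
  have hnv : ∀ y : Gb, (∀ a ∈ M, omega χ y ≠ ((a : integralClosure ℤ ℂ) : ℂ)) ↔
      ¬ InM M (cc χ (cls ⊤ y)) := by
    intro y
    constructor
    · intro h h1
      have h2 : InM M (((⟨cc χ (cls ⊤ y), hint y⟩ : integralClosure ℤ ℂ)) : ℂ) := h1
      exact h _ (InM.mem hS h2) (hom y)
    · intro h a ha h1
      apply h
      rw [← hom, h1]
      exact InM.coe hS ha
  have hle : (D.subgroupOf L).map π ≤ Subgroup.centralizer {π ⟨x', hD.mem⟩} := by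
    rw [← hJ2, hDb, (hP2 x' hD.mem hD.reg).2.1]
    exact hD.le
  refine ⟨π ⟨x', hD.mem⟩, (hP2 x' hD.mem hD.reg).1, (hnv _).2 hne, hle, ?_, JDG_index hpr hle he1, ?_⟩
  · rw [(hJ1 ((D.subgroupOf L).map π)).2.2.2.1, hDb]
    exact hD.pg
  · intro y hy
    have h1 := hD₁.min y (Subgroup.mem_top _) ((hnv y).1 hy)
    rw [hT5] at h1
    obtain ⟨-, hS2, -⟩ := hSYL p Gb
    obtain ⟨S, -, hS3, hS4, hS5⟩ := hS2 ⊥ (Subgroup.centralizer {y}) IsPGroup.of_bot bot_le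
    exact ⟨S, hS3, hS4, by rw [he2, hS5]; exact h1⟩

end Pool.Agent.FI3
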